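import Pool.Agent.Helper56_VM.Fin

/-!
# Squad VMV, module LDC: decoupling for the curve of high powers at units
-/

set_option autoImplicit false
set_option linter.unusedVariables false

namespace Pool.Agent.VM.H56

open Pool.Agent.VM

theorem mom_empty (q : ℕ) {l : ℕ} (E : Fin l → ℤ → ℤ) {r : ℕ} (hr : 1 ≤ r) (w : ℤ → ℂ) :
    mom q E r ∅ w = 0 := by
  unfold mom Av G
  have h : (2 * r) ≠ 0 := by omega
  simp [h]

/-- the local inequality from classes modulo `p ^ a` to classes modulo `p ^ a'` -/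
def Loc (p k l M a a' : ℕ) (F : ℝ) : Prop :=
  ∀ c : ℤ, ¬ (p : ℤ) ∣ c → ∀ (s : Finset ℤ) (w : ℤ → ℂ), InCl (p ^ a) c s →
    mom (p ^ M) (mc (k - l) l) (tri l) s w ≤
      F * (Sq (p ^ M) (mc (k - l) l) (tri l) (p ^ a') s w) ^ (tri l)

theorem loc_mono {p k l M a a' : ℕ} {F F' : ℝ} (h : Loc p k l M a a' F) (hF : F ≤ F') :
    Loc p k l M a a' F' := by
  intro c hc s w hs
  exact (h c hc s w hs).trans (mul_le_mul_of_nonneg_right hF
    (pow_nonneg (sq_nonneg _ _ _ _ _ _) _))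

theorem loc_comp {p k l M a a1 a' : ℕ} (hp : p.Prime) (hl : 1 ≤ l) (sqn : SqnStmt) {F1 F2 : ℝ}
    (h1 : 0 ≤ F1) (h2 : 0 ≤ F2) (ha : 1 ≤ a) (ha1 : a ≤ a1) (ha' : a1 ≤ a')
    (H1 : Loc p k l M a a1 F1) (H2 : Loc p k l M a1 a' F2) : Loc p k l M a a' (F1 * F2) := by
  intro c hc s w hs
  have hr : 1 ≤ tri l := tri_pos hl
  have hr0 : tri l ≠ 0 := by omega
  have hr1 : (0 : ℝ) < tri l := by exact_mod_cast hr
  obtain ⟨S, hS⟩ : ∃ S, S = Sq (p ^ M) (mc (k - l) l) (tri l) (p ^ a') s w := ⟨_, rfl⟩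
  have hS0 : 0 ≤ S := hS ▸ sq_nonneg _ _ _ _ _ _
  have key : Sq (p ^ M) (mc (k - l) l) (tri l) (p ^ a1) s w ≤ F2 ^ (1 / (tri l : ℝ)) * S := by
    have hsum := sqn (p ^ M) l (mc (k - l) l) (tri l) (p ^ a1) (p ^ a') s w (pow_pos hp.pos _) hr
      (pow_pos hp.pos _) (pow_pos hp.pos _) (pow_dvd_pow p ha')
    rw [hS, ← hsum, Finset.mul_sum]
    conv_lhs => unfold Sq
    apply Finset.sum_le_sum
    intro d _
    have hcl : mom (p ^ M) (mc (k - l) l) (tri l) (cl (p ^ a1) (d : ℤ) s) w ≤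
        F2 * (Sq (p ^ M) (mc (k - l) l) (tri l) (p ^ a') (cl (p ^ a1) (d : ℤ) s) w) ^ (tri l) := by
      rcases Finset.eq_empty_or_nonempty (cl (p ^ a1) (d : ℤ) s) with he | ⟨x, hx⟩
      · rw [he, mom_empty _ _ hr]
        exact mul_nonneg h2 (pow_nonneg (sq_nonneg _ _ _ _ _ _) _)
      · refine H2 d ?_ _ w ?_
        · intro hd
          apply hc
          unfold cl at hx
          rw [Finset.mem_filter] at hx
          have h3 : (p : ℤ) ∣ ((p ^ a1 : ℕ) : ℤ) := by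
            exact_mod_cast dvd_pow_self p (by omega : a1 ≠ 0)
          have h4 : (p : ℤ) ∣ ((p ^ a : ℕ) : ℤ) := by
            exact_mod_cast dvd_pow_self p (by omega : a ≠ 0)
          have h5 : x ≡ d [ZMOD (p : ℤ)] := hx.2.of_dvd h3
          have h6 : x ≡ c [ZMOD (p : ℤ)] := (hs x hx.1).of_dvd h4
          have h7 : c ≡ (d : ℤ) [ZMOD (p : ℤ)] := h6.symm.trans h5
          exact (Int.ModEq.dvd_iff h7).2 hd
        · intro y hy
          unfold cl at hy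
          rw [Finset.mem_filter] at hy
          exact hy.2
    obtain ⟨T, hT⟩ : ∃ T, T = Sq (p ^ M) (mc (k - l) l) (tri l) (p ^ a') (cl (p ^ a1) (d : ℤ) s) w :=
      ⟨_, rfl⟩
    have hT0 : 0 ≤ T := hT ▸ sq_nonneg _ _ _ _ _ _
    rw [← hT] at hcl ⊢
    calc (mom (p ^ M) (mc (k - l) l) (tri l) (cl (p ^ a1) (d : ℤ) s) w) ^ (1 / (tri l : ℝ)) ≤
          (F2 * T ^ (tri l)) ^ (1 / (tri l : ℝ)) :=
          Real.rpow_le_rpow (mom_nonneg _ _ _ _ _) hcl (by positivity)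
      _ = F2 ^ (1 / (tri l : ℝ)) * T := by
          rw [Real.mul_rpow h2 (by positivity), one_div, Real.pow_rpow_inv_natCast hT0 hr0]
  have h3 := H1 c hc s w hs
  rw [← hS]
  refine h3.trans ?_
  have h4 : (Sq (p ^ M) (mc (k - l) l) (tri l) (p ^ a1) s w) ^ (tri l) ≤
      (F2 ^ (1 / (tri l : ℝ)) * S) ^ (tri l) :=
    pow_le_pow_left₀ (sq_nonneg _ _ _ _ _ _) key _
  have h5 : (F2 ^ (1 / (tri l : ℝ)) * S) ^ (tri l) = F2 * S ^ (tri l) := by
    rw [mul_pow, one_div, Real.rpow_inv_natCast_pow h2 hr0]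
  rw [h5] at h4
  calc F1 * (Sq (p ^ M) (mc (k - l) l) (tri l) (p ^ a1) s w) ^ (tri l) ≤ F1 * (F2 * S ^ (tri l)) :=
        mul_le_mul_of_nonneg_left h4 h1
    _ = F1 * F2 * S ^ (tri l) := by ring

theorem loc_trv {p k l M a a' : ℕ} (hp : p.Prime) (hl : 1 ≤ l) (trv : TrvStmt) (ha : a ≤ a') :
    Loc p k l M a a' ((p : ℝ) ^ ((a' - a) * tri l)) := by
  intro c hc s w hs
  have h := trv (p ^ M) l (mc (k - l) l) (tri l) (p ^ a) (p ^ (a' - a)) c s w (pow_pos hp.pos _)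
    (tri_pos hl) (pow_pos hp.pos _) (pow_pos hp.pos _) hs
  rw [← pow_add, Nat.add_sub_cancel' ha] at h
  refine h.trans (le_of_eq ?_)
  congr 1
  push_cast
  rw [← pow_mul]

theorem loc_step {p k l M a m : ℕ} (hp : p.Prime) (hl : 1 ≤ l) (ld1 : Ld1Stmt p k l)
    (ldm : LdmStmt) {C : ℝ} (hC : 0 ≤ C) (hD : Dec p l m C) (hm : l * m ≤ a)
    (hM : l * (a + m) ≤ M) : Loc p k l M a (a + m) C := by
  intro c hc s w hs
  refine ldm p l (tri l) (l * (a + m)) M (p ^ (a + m)) (mc (k - l) l) C s hp.pos (tri_pos hl) hC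
    hM (pow_pos hp.pos _) ?_ w
  intro w'
  exact ld1 m a (l * (a + m)) c C hC hD hc (by nlinarith) le_rfl s w' hs

/-- LDC -/
theorem ldc (p k l : ℕ) (hp : p.Prime) (hk : k < p) (hl : 1 ≤ l) (hlk : l < k)
    (hD : DecE p l) (ld1 : Ld1Stmt p k l) (ldm : LdmStmt) (trv : TrvStmt) (sqn : SqnStmt) :
    LdcStmt p k l := by
  intro ε hε
  have hp1 : (1 : ℝ) < p := by exact_mod_cast hp.one_lt
  have hp0 : (0 : ℝ) < p := by linarith
  obtain ⟨C₀, hC₀, hD₀⟩ := hD (ε / 2) (by positivity)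
  obtain ⟨C, hCdef⟩ : ∃ C, C = max C₀ 1 := ⟨_, rfl⟩
  have hC1 : 1 ≤ C := hCdef ▸ le_max_right _ _
  have hC0 : 0 < C := by linarith
  have hD1 : ∀ m : ℕ, Dec p l m (C * (p : ℝ) ^ (ε / 2 * (m : ℝ))) := fun m =>
    dec_mono (hD₀ m) (mul_le_mul_of_nonneg_right (hCdef ▸ le_max_left _ _) (by positivity))
  obtain ⟨m₁, hm₁⟩ := pow_unbounded_of_one_lt C (Real.one_lt_rpow hp1 (by positivity : 0 < ε / 2))
  have hm₁' : ∀ m : ℕ, m₁ ≤ m → C ≤ (p : ℝ) ^ (ε / 2 * (m : ℝ)) := by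
    intro m hm
    have h1 : ((p : ℝ) ^ (ε / 2)) ^ m₁ ≤ ((p : ℝ) ^ (ε / 2)) ^ m :=
      pow_le_pow_right₀ (Real.one_le_rpow hp1.le (by positivity)) hm
    rw [Real.rpow_mul_natCast hp0.le]
    linarith
  -- large starting points
  have big : ∀ n M a a' : ℕ, a' - a = n → l * (m₁ + 1) ≤ a → a ≤ a' → l * a' ≤ M →
      Loc p k l M a a' (C * (p : ℝ) ^ (ε * ((n : ℕ) : ℝ))) := by
    intro n
    induction n using Nat.strong_induction_on with
    | _ n ih =>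
      intro M a a' hn ha haa hM
      by_cases hsm : a' ≤ a + a / l
      · -- one step
        have h1 : l * n ≤ a := by
          have h2 : n ≤ a / l := by omega
          calc l * n ≤ l * (a / l) := Nat.mul_le_mul le_rfl h2
            _ ≤ a := Nat.mul_div_le a l
        have h2 : a + n = a' := by omega
        have h3 := loc_step (M := M) hp hl ld1 ldm (by positivity) (hD1 n) h1 (by rw [h2]; exact hM)
        rw [h2] at h3
        refine loc_mono h3 ?_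
        refine mul_le_mul_of_nonneg_left ?_ hC0.le
        apply Real.rpow_le_rpow_of_exponent_le hp1.le
        have : (0 : ℝ) ≤ n := Nat.cast_nonneg _
        nlinarith
      · obtain ⟨m, hm⟩ : ∃ m, m = a / l := ⟨_, rfl⟩
        rw [← hm] at hsm
        have hm1 : m₁ + 1 ≤ m := by
          rw [hm, Nat.le_div_iff_mul_le (by omega)]
          rw [mul_comm]
          exact ha
        have h1 : l * m ≤ a := hm ▸ Nat.mul_div_le a l
        have h2 : l * (a + m) ≤ l * a' := Nat.mul_le_mul le_rfl (by omega)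
        have h3 := loc_step (M := M) hp hl ld1 ldm (by positivity) (hD1 m) h1 (by omega)
        have h4 := ih (n - m) (by omega) M (a + m) a' (by omega) (by omega) (by omega) hM
        have ha1 : 1 ≤ a := by
          have : 1 ≤ l * (m₁ + 1) := Nat.mul_pos (by omega) (by omega)
          omega
        have h5 := loc_comp hp hl sqn (by positivity) (by positivity) ha1 (by omega) (by omega) h3 h4
        refine loc_mono h5 ?_
        have h6 : C ≤ (p : ℝ) ^ (ε / 2 * (m : ℝ)) := hm₁' m (by omega)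
        have h7 : C * (p : ℝ) ^ (ε / 2 * (m : ℝ)) ≤ (p : ℝ) ^ (ε * (m : ℝ)) := by
          calc C * (p : ℝ) ^ (ε / 2 * (m : ℝ)) ≤
                (p : ℝ) ^ (ε / 2 * (m : ℝ)) * (p : ℝ) ^ (ε / 2 * (m : ℝ)) :=
                mul_le_mul_of_nonneg_right h6 (by positivity)
            _ = (p : ℝ) ^ (ε * (m : ℝ)) := by
                rw [← Real.rpow_add hp0]
                congr 1
                ring
        have h8 : (p : ℝ) ^ (ε * (m : ℝ)) * (p : ℝ) ^ (ε * ((n - m : ℕ) : ℝ)) =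
            (p : ℝ) ^ (ε * (n : ℝ)) := by
          rw [← Real.rpow_add hp0]
          congr 1
          rw [Nat.cast_sub (by omega)]
          ring
        calc C * (p : ℝ) ^ (ε / 2 * (m : ℝ)) * (C * (p : ℝ) ^ (ε * ((n - m : ℕ) : ℝ))) ≤
              (p : ℝ) ^ (ε * (m : ℝ)) * (C * (p : ℝ) ^ (ε * ((n - m : ℕ) : ℝ))) :=
              mul_le_mul_of_nonneg_right h7 (by positivity)
          _ = C * ((p : ℝ) ^ (ε * (m : ℝ)) * (p : ℝ) ^ (ε * ((n - m : ℕ) : ℝ))) := by ring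
          _ = C * (p : ℝ) ^ (ε * (n : ℝ)) := by rw [h8]
  obtain ⟨A, hA⟩ : ∃ A, A = l * (m₁ + 1) := ⟨_, rfl⟩
  rw [← hA] at big
  have hA1 : 1 ≤ A := by
    rw [hA]
    exact Nat.mul_pos (by omega) (by omega)
  refine ⟨(p : ℝ) ^ (A * tri l) * C, by positivity, ?_⟩
  intro M a a' c ha haa hM hc s w hs
  suffices h : Loc p k l M a a' ((p : ℝ) ^ (A * tri l) * C * (p : ℝ) ^ (ε * (a' : ℝ))) from
    h c hc s w hs
  have hA2 : 1 ≤ (p : ℝ) ^ (A * tri l) := one_le_pow₀ hp1.le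
  have hpe : 1 ≤ (p : ℝ) ^ (ε * (a' : ℝ)) :=
    Real.one_le_rpow hp1.le (mul_nonneg hε.le (Nat.cast_nonneg _))
  by_cases h1 : A ≤ a
  · refine loc_mono (big (a' - a) M a a' rfl h1 haa hM) ?_
    have h2 : (p : ℝ) ^ (ε * ((a' - a : ℕ) : ℝ)) ≤ (p : ℝ) ^ (ε * (a' : ℝ)) := by
      apply Real.rpow_le_rpow_of_exponent_le hp1.le
      have : ((a' - a : ℕ) : ℝ) ≤ a' := by exact_mod_cast Nat.sub_le _ _
      nlinarith
    calc C * (p : ℝ) ^ (ε * ((a' - a : ℕ) : ℝ)) ≤ C * (p : ℝ) ^ (ε * (a' : ℝ)) :=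
          mul_le_mul_of_nonneg_left h2 hC0.le
      _ ≤ (p : ℝ) ^ (A * tri l) * (C * (p : ℝ) ^ (ε * (a' : ℝ))) :=
          le_mul_of_one_le_left (by positivity) hA2
      _ = (p : ℝ) ^ (A * tri l) * C * (p : ℝ) ^ (ε * (a' : ℝ)) := by ring
  · by_cases h2 : a' ≤ A
    · refine loc_mono (loc_trv hp hl trv haa) ?_
      have h3 : (p : ℝ) ^ ((a' - a) * tri l) ≤ (p : ℝ) ^ (A * tri l) :=
        pow_le_pow_right₀ hp1.le (Nat.mul_le_mul (by omega) le_rfl)
      have h4 : (1 : ℝ) ≤ C * (p : ℝ) ^ (ε * (a' : ℝ)) := by nlinarith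
      calc (p : ℝ) ^ ((a' - a) * tri l) ≤ (p : ℝ) ^ (A * tri l) := h3
        _ ≤ (p : ℝ) ^ (A * tri l) * (C * (p : ℝ) ^ (ε * (a' : ℝ))) :=
            le_mul_of_one_le_right (by positivity) h4
        _ = (p : ℝ) ^ (A * tri l) * C * (p : ℝ) ^ (ε * (a' : ℝ)) := by ring
    · have h3 := loc_trv (k := k) (M := M) hp hl trv (by omega : a ≤ A)
      have h4 := big (a' - A) M A a' rfl le_rfl (by omega) hM
      have h5 := loc_comp hp hl sqn (by positivity) (by positivity) ha (by omega) (by omega) h3 h4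
      refine loc_mono h5 ?_
      have h6 : (p : ℝ) ^ ((A - a) * tri l) ≤ (p : ℝ) ^ (A * tri l) :=
        pow_le_pow_right₀ hp1.le (Nat.mul_le_mul (by omega) le_rfl)
      have h7 : (p : ℝ) ^ (ε * ((a' - A : ℕ) : ℝ)) ≤ (p : ℝ) ^ (ε * (a' : ℝ)) := by
        apply Real.rpow_le_rpow_of_exponent_le hp1.le
        have : ((a' - A : ℕ) : ℝ) ≤ a' := by exact_mod_cast Nat.sub_le _ _
        nlinarith
      calc (p : ℝ) ^ ((A - a) * tri l) * (C * (p : ℝ) ^ (ε * ((a' - A : ℕ) : ℝ))) ≤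
            (p : ℝ) ^ (A * tri l) * (C * (p : ℝ) ^ (ε * (a' : ℝ))) :=
            mul_le_mul h6 (mul_le_mul_of_nonneg_left h7 hC0.le) (by positivity) (by positivity)
        _ = (p : ℝ) ^ (A * tri l) * C * (p : ℝ) ^ (ε * (a' : ℝ)) := by ring

end Pool.Agent.VM.H56
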