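import Pool.Agent.VM.Stmts

/-!
# Squad VMV, module FIN: the conclusion
-/

set_option autoImplicit false
set_option linter.unusedVariables false

namespace Pool.Agent.VM.H56

open Pool.Agent.VM

theorem av_nonneg (q l : ℕ) (Φ : (Fin l → ℤ) → ℝ) (h : ∀ ζ, 0 ≤ Φ ζ) : 0 ≤ Av q l Φ := by
  unfold Av
  exact div_nonneg (Finset.sum_nonneg fun _ _ => h _) (by positivity)

theorem mom_nonneg (q : ℕ) {l : ℕ} (E : Fin l → ℤ → ℤ) (r : ℕ) (s : Finset ℤ) (w : ℤ → ℂ) :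
    0 ≤ mom q E r s w := av_nonneg _ _ _ fun _ => by positivity

theorem sq_nonneg (q : ℕ) {l : ℕ} (E : Fin l → ℤ → ℤ) (r m : ℕ) (s : Finset ℤ) (w : ℤ → ℂ) :
    0 ≤ Sq q E r m s w := by
  unfold Sq
  exact Finset.sum_nonneg fun c _ => Real.rpow_nonneg (mom_nonneg _ _ _ _ _) _

theorem dec_mono {p k n : ℕ} {C C' : ℝ} (h : Dec p k n C) (hC : C ≤ C') : Dec p k n C' := by
  intro s w
  exact (h s w).trans (mul_le_mul_of_nonneg_right hC (pow_nonneg (sq_nonneg _ _ _ _ _ _) _))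

theorem bil_mono {p k l n a b : ℕ} {C C' : ℝ} (h : Bil p k l n a b C) (hC : C ≤ C') :
    Bil p k l n a b C' := by
  intro c c' hcc s s' w w' hs hs'
  refine (h c c' hcc s s' w w' hs hs').trans ?_
  exact mul_le_mul_of_nonneg_right (mul_le_mul_of_nonneg_right hC
    (pow_nonneg (sq_nonneg _ _ _ _ _ _) _)) (pow_nonneg (sq_nonneg _ _ _ _ _ _) _)

/-- the exponents of the recursion -/
noncomputable def AA (k : ℕ) (η : ℝ) : ℕ → ℕ → ℝ
  | 0, l => if l = 0 then η else 0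
  | R + 1, l => if l = 0 then η else if l < k then
      ((k : ℝ) - l) / ((k : ℝ) - l + 1) * AA k η R (l - 1) + 1 / (l : ℝ) * AA k η R (k - l)
      else 0

theorem aa_zero (k : ℕ) (η : ℝ) (l : ℕ) : AA k η 0 l = if l = 0 then η else 0 := rfl

theorem aa_succ_zero (k : ℕ) (η : ℝ) (R : ℕ) : AA k η (R + 1) 0 = η := by
  simp [AA]

theorem aa_l0 (k : ℕ) (η : ℝ) (R : ℕ) : AA k η R 0 = η := by
  cases R with
  | zero => simp [AA]
  | succ R => exact aa_succ_zero k η R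

theorem aa_succ (k : ℕ) (η : ℝ) (R l : ℕ) (h1 : 1 ≤ l) (h2 : l < k) : AA k η (R + 1) l =
    ((k : ℝ) - l) / ((k : ℝ) - l + 1) * AA k η R (l - 1) + 1 / (l : ℝ) * AA k η R (k - l) := by
  have h3 : l ≠ 0 := by omega
  simp [AA, h3, h2]

theorem aa_nonneg (k : ℕ) (η : ℝ) (hη : 0 ≤ η) : ∀ R l, 0 ≤ AA k η R l := by
  intro R
  induction R with
  | zero =>
    intro l
    rw [aa_zero]
    split_ifs
    · exact hη
    · exact le_rfl
  | succ R ih =>
    intro l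
    by_cases h0 : l = 0
    · rw [h0, aa_succ_zero]
      exact hη
    by_cases hk : l < k
    · rw [aa_succ k η R l (by omega) hk]
      have h1 : (0 : ℝ) < (k : ℝ) - l := by
        have : (l : ℝ) < k := by exact_mod_cast hk
        linarith
      have := ih (l - 1)
      have := ih (k - l)
      positivity
    · simp [AA, h0, hk]

/-- the bound for `l = 0` -/
theorem bil_zero {p k : ℕ} (hp : p.Prime) (hk : 2 ≤ k) (hlm0 : Lm0Stmt p k) {e η C₀ : ℝ}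
    (hη : 0 ≤ η) (he : η ≤ e) (hC₀ : 0 < C₀)
    (hD : ∀ n : ℕ, Dec p k n (C₀ * (p : ℝ) ^ (e * (n : ℝ)))) (n a b : ℕ) (ha : a ≤ n)
    (hb : b ≤ n) : Bil p k 0 n a b (C₀ * (p : ℝ) ^ (e * (n : ℝ) - η * (b : ℝ))) := by
  have hp1 : (1 : ℝ) ≤ p := by exact_mod_cast hp.one_lt.le
  have hp0 : (0 : ℝ) < p := by linarith
  have h1 := hlm0 0 n a b _ _ (by omega) ha hb (by positivity) (by positivity) (hD (n - a))
    (hD (n - b))
  refine bil_mono h1 ?_
  have h2 : (tri 0 : ℝ) / (tri k : ℝ) = 0 := by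
    have : tri 0 = 0 := rfl
    rw [this]
    simp
  rw [h2, Real.rpow_zero, one_mul, sub_zero, Real.rpow_one]
  have h3 : ((n - b : ℕ) : ℝ) = (n : ℝ) - b := by
    rw [Nat.cast_sub hb]
  rw [h3]
  refine mul_le_mul_of_nonneg_left ?_ hC₀.le
  apply Real.rpow_le_rpow_of_exponent_le hp1
  have hb0 : (0 : ℝ) ≤ b := Nat.cast_nonneg b
  nlinarith

theorem tri_lt {l k : ℕ} (h : l < k) : tri l ≤ tri k := by
  unfold tri
  apply Nat.div_le_div_right
  exact Nat.mul_le_mul h.le (by omega)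

theorem tri_pos {k : ℕ} (h : 1 ≤ k) : 0 < tri k := by
  unfold tri
  apply Nat.div_pos _ (by norm_num)
  nlinarith

/-- the bilinear bounds -/
theorem claim {p k : ℕ} (hp : p.Prime) (hk : 2 ≤ k)
    (hlma : ∀ l, 1 ≤ l → l < k → LmaStmt p k l) (hlmb : ∀ l, 1 ≤ l → l < k → LmbStmt p k l)
    (hlm0 : Lm0Stmt p k) {e η C₀ : ℝ} (hη : 0 ≤ η) (he : η ≤ e) (hC₀ : 0 < C₀)
    (hD : ∀ n : ℕ, Dec p k n (C₀ * (p : ℝ) ^ (e * (n : ℝ)))) (R : ℕ) :
    ∀ ε : ℝ, 0 < ε → ∃ C : ℝ, 0 < C ∧ ∀ n a b l : ℕ, l < k → 1 ≤ a → a ≤ n → 1 ≤ b →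
      (k.factorial) ^ R ∣ b → k ^ R * b ≤ n → l * a ≤ (k - l + 1) * b →
      Bil p k l n a b (C * (p : ℝ) ^ (e * (n : ℝ) - AA k η R l * (b : ℝ) + ε * (n : ℝ))) := by
  have hp1 : (1 : ℝ) ≤ p := by exact_mod_cast hp.one_lt.le
  have hp0 : (0 : ℝ) < p := by linarith
  induction R with
  | zero =>
    intro ε hε
    refine ⟨C₀, hC₀, ?_⟩
    intro n a b l hl ha1 ha hb1 _ hbn _
    have hb : b ≤ n := by simpa using hbn
    have hn0 : (0 : ℝ) ≤ n := Nat.cast_nonneg n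
    by_cases h0 : l = 0
    · rw [h0, aa_l0]
      refine bil_mono (bil_zero hp hk hlm0 hη he hC₀ hD n a b ha hb) ?_
      refine mul_le_mul_of_nonneg_left ?_ hC₀.le
      apply Real.rpow_le_rpow_of_exponent_le hp1
      nlinarith
    · have h1 := hlm0 l n a b _ _ hl ha hb (by positivity) (by positivity) (hD (n - a))
        (hD (n - b))
      refine bil_mono h1 ?_
      rw [aa_zero, if_neg h0, zero_mul, sub_zero]
      have ht : (0 : ℝ) < tri k := by exact_mod_cast tri_pos (by omega : 1 ≤ k)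
      have hθ0 : (0 : ℝ) ≤ (tri l : ℝ) / (tri k : ℝ) := by positivity
      have hθ1 : (tri l : ℝ) / (tri k : ℝ) ≤ 1 := by
        rw [div_le_one ht]
        exact_mod_cast tri_lt hl
      have hle : ∀ m : ℕ, m ≤ n → C₀ * (p : ℝ) ^ (e * (m : ℝ)) ≤ C₀ * (p : ℝ) ^ (e * (n : ℝ)) := by
        intro m hm
        refine mul_le_mul_of_nonneg_left ?_ hC₀.le
        apply Real.rpow_le_rpow_of_exponent_le hp1
        have : (m : ℝ) ≤ n := by exact_mod_cast hm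
        have : 0 ≤ e := hη.trans he
        nlinarith
      have h2 := Real.rpow_le_rpow (by positivity) (hle (n - a) (by omega)) hθ0
      have h3 := Real.rpow_le_rpow (by positivity) (hle (n - b) (by omega))
        (by linarith : (0 : ℝ) ≤ 1 - (tri l : ℝ) / (tri k : ℝ))
      refine (mul_le_mul h2 h3 (by positivity) (by positivity)).trans ?_
      rw [← Real.rpow_add (by positivity)]
      have h4 : (tri l : ℝ) / (tri k : ℝ) + (1 - (tri l : ℝ) / (tri k : ℝ)) = 1 := by ring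
      rw [h4, Real.rpow_one]
      refine mul_le_mul_of_nonneg_left ?_ hC₀.le
      apply Real.rpow_le_rpow_of_exponent_le hp1
      nlinarith
  | succ R ih =>
    intro ε hε
    obtain ⟨C, hC, hB⟩ := ih (ε / 2) (by positivity)
    -- the constants of LMA for all `l`
    have hL : ∃ C' : ℝ, 0 < C' ∧ ∀ l, 1 ≤ l → l < k → ∀ (n a a' b : ℕ) (B : ℝ), 0 ≤ B → 1 ≤ a →
        a ≤ a' → a' ≤ n → 1 ≤ b → b ≤ n → l * a' ≤ (k - l + 1) * b → Bil p k l n a' b B →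
        Bil p k l n a b (C' * (p : ℝ) ^ (ε / 2 * (a' : ℝ)) * B) := by
      have h1 : ∀ l, ∃ c : ℝ, 0 < c ∧ (1 ≤ l → l < k → ∀ (n a a' b : ℕ) (B : ℝ), 0 ≤ B → 1 ≤ a →
          a ≤ a' → a' ≤ n → 1 ≤ b → b ≤ n → l * a' ≤ (k - l + 1) * b → Bil p k l n a' b B →
          Bil p k l n a b (c * (p : ℝ) ^ (ε / 2 * (a' : ℝ)) * B)) := by
        intro l
        by_cases h : 1 ≤ l ∧ l < k
        · obtain ⟨c, hc, h2⟩ := hlma l h.1 h.2 (ε / 2) (by positivity)
          exact ⟨c, hc, fun _ _ => h2⟩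
        · exact ⟨1, one_pos, fun h3 h4 => absurd ⟨h3, h4⟩ h⟩
      choose c hc h2 using h1
      refine ⟨∑ l ∈ Finset.range (k + 1), c l, Finset.sum_pos (fun l _ => hc l)
        ⟨0, Finset.mem_range.2 (by omega)⟩, ?_⟩
      intro l hl1 hlk n a a' b B hB0 ha haa ha'n hb hbn hlab hBil
      refine bil_mono (h2 l hl1 hlk n a a' b B hB0 ha haa ha'n hb hbn hlab hBil) ?_
      refine mul_le_mul_of_nonneg_right ?_ hB0
      refine mul_le_mul_of_nonneg_right ?_ (by positivity)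
      exact Finset.single_le_sum (f := c) (fun i _ => (hc i).le) (Finset.mem_range.2 (by omega))
    obtain ⟨C', hC', hL⟩ := hL
    refine ⟨C₀ + C' * C, by positivity, ?_⟩
    intro n a b l hl ha1 ha hb1 hdvd hbn hlab
    have hn0 : (0 : ℝ) ≤ n := Nat.cast_nonneg n
    have hkR : 1 ≤ k ^ (R + 1) := Nat.one_le_pow _ _ (by omega)
    have hb : b ≤ n := le_trans (Nat.le_mul_of_pos_left b hkR) hbn
    by_cases h0 : l = 0
    · rw [h0, aa_l0]
      refine bil_mono (bil_zero hp hk hlm0 hη he hC₀ hD n a b ha hb) ?_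
      have h1 : (p : ℝ) ^ (e * (n : ℝ) - η * (b : ℝ)) ≤
          (p : ℝ) ^ (e * (n : ℝ) - η * (b : ℝ) + ε * (n : ℝ)) := by
        apply Real.rpow_le_rpow_of_exponent_le hp1
        nlinarith
      have h2 : C₀ ≤ C₀ + C' * C := by
        have : 0 < C' * C := by positivity
        linarith
      exact mul_le_mul h2 h1 (by positivity) (by positivity)
    · have hl1 : 1 ≤ l := by omega
      -- the scale `a'`
      have hfac : l ∣ k.factorial := Nat.dvd_factorial (by omega) hl.le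
      obtain ⟨f, hf⟩ := hfac
      obtain ⟨b₂, hb₂⟩ := hdvd
      have hb₁ : b = l * (f * k.factorial ^ R * b₂) := by
        rw [hb₂, pow_succ, hf]
        ring
      obtain ⟨b₁, hb₁def⟩ : ∃ b₁, b₁ = f * k.factorial ^ R * b₂ := ⟨_, rfl⟩
      rw [← hb₁def] at hb₁
      have hb₁1 : 1 ≤ b₁ := by
        rcases Nat.eq_zero_or_pos b₁ with h | h
        · rw [h, mul_zero] at hb₁
          omega
        · exact h
      obtain ⟨a', ha'⟩ : ∃ a', a' = (k - l + 1) * b₁ := ⟨_, rfl⟩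
      have ha'1 : 1 ≤ a' := by
        rw [ha']
        exact Nat.mul_pos (by omega) hb₁1
      have ha'd : k.factorial ^ R ∣ a' := by
        rw [ha', hb₁def]
        exact ⟨(k - l + 1) * f * b₂, by ring⟩
      have hbd : k.factorial ^ R ∣ b := by
        rw [hb₂, pow_succ]
        exact ⟨k.factorial * b₂, by ring⟩
      have ha'kb : a' ≤ k * b := by
        rw [ha', hb₁]
        have h1 : k - l + 1 ≤ k := by omega
        calc (k - l + 1) * b₁ ≤ k * b₁ := Nat.mul_le_mul_right _ h1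
          _ ≤ k * (l * b₁) := Nat.mul_le_mul_left _ (Nat.le_mul_of_pos_left _ hl1)
      have hkRa' : k ^ R * a' ≤ n := by
        calc k ^ R * a' ≤ k ^ R * (k * b) := Nat.mul_le_mul_left _ ha'kb
          _ = k ^ (R + 1) * b := by rw [pow_succ]; ring
          _ ≤ n := hbn
      have hkR' : 1 ≤ k ^ R := Nat.one_le_pow _ _ (by omega)
      have ha'n : a' ≤ n := le_trans (Nat.le_mul_of_pos_left a' hkR') hkRa'
      have hkRb : k ^ R * b ≤ n := by
        refine le_trans ?_ hbn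
        exact Nat.mul_le_mul_right _ (Nat.pow_le_pow_right (by omega) (by omega))
      have haa' : a ≤ a' := by
        have h1 : l * a ≤ l * a' := by
          calc l * a ≤ (k - l + 1) * b := hlab
            _ = l * a' := by rw [ha', hb₁]; ring
        exact Nat.le_of_mul_le_mul_left h1 hl1
      have hla' : l * a' ≤ (k - l + 1) * b := by
        rw [ha', hb₁]
        exact le_of_eq (by ring)
      have hc1 : (l - 1) * a' ≤ (k - (l - 1) + 1) * b := by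
        have h1 : (l - 1) * a' ≤ l * a' := Nat.mul_le_mul_right _ (by omega)
        refine h1.trans (hla'.trans ?_)
        exact Nat.mul_le_mul_right _ (by omega)
      have hc2 : (k - l) * b ≤ (k - (k - l) + 1) * a' := by
        have h1 : k - (k - l) = l := by omega
        rw [h1, ha', hb₁]
        calc (k - l) * (l * b₁) ≤ (k - l + 1) * ((l + 1) * b₁) :=
              Nat.mul_le_mul (by omega) (Nat.mul_le_mul_right _ (by omega))
          _ = (l + 1) * ((k - l + 1) * b₁) := by ring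
      have hB1 := hB n a' b (l - 1) (by omega) ha'1 ha'n hb1 hbd hkRb hc1
      have hB2 := hB n b a' (k - l) (by omega) hb1 hb ha'1 ha'd hkRa' hc2
      have hB3 := hlmb l hl1 hl n a' b _ _ (by positivity) (by positivity) hB1 hB2
      have hB4 := hL l hl1 hl n a a' b _ (by positivity) ha1 haa' ha'n hb1 hb hla' hB3
      refine bil_mono hB4 ?_
      -- the exponents
      have hkl : (0 : ℝ) < (k : ℝ) - l := by
        have : (l : ℝ) < k := by exact_mod_cast hl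
        linarith
      have hl0 : (0 : ℝ) < l := by exact_mod_cast hl1
      obtain ⟨x, hx⟩ : ∃ x, x = ((k : ℝ) - l) / ((k : ℝ) - l + 1) := ⟨_, rfl⟩
      obtain ⟨y, hy⟩ : ∃ y, y = 1 / ((k : ℝ) - l + 1) := ⟨_, rfl⟩
      have hxy : x + y = 1 := by
        rw [hx, hy, ← add_div]
        exact div_self (by linarith)
      have hya : y * (a' : ℝ) = (b : ℝ) / l := by
        have h1 : (a' : ℝ) = ((k : ℝ) - l + 1) * b₁ := by
          rw [ha']
          push_cast [Nat.cast_sub hl.le]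
          ring
        have h2 : (b : ℝ) = l * b₁ := by
          rw [hb₁]
          push_cast
          ring
        rw [h1, h2, hy]
        field_simp
      rw [← hx, ← hy]
      rw [Real.mul_rpow hC.le (by positivity), Real.mul_rpow hC.le (by positivity),
        ← Real.rpow_mul hp0.le, ← Real.rpow_mul hp0.le]
      have hCxy : C ^ x * C ^ y = C := by
        rw [← Real.rpow_add hC, hxy, Real.rpow_one]
      have hexp : C ^ x * (p : ℝ) ^ ((e * (n : ℝ) - AA k η R (l - 1) * (b : ℝ) +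
            ε / 2 * (n : ℝ)) * x) *
          (C ^ y * (p : ℝ) ^ ((e * (n : ℝ) - AA k η R (k - l) * (a' : ℝ) + ε / 2 * (n : ℝ)) * y)) =
          C * (p : ℝ) ^ (e * (n : ℝ) - AA k η (R + 1) l * (b : ℝ) + ε / 2 * (n : ℝ)) := by
        have h1 : C ^ x * (p : ℝ) ^ ((e * (n : ℝ) - AA k η R (l - 1) * (b : ℝ) +
            ε / 2 * (n : ℝ)) * x) *
          (C ^ y * (p : ℝ) ^ ((e * (n : ℝ) - AA k η R (k - l) * (a' : ℝ) + ε / 2 * (n : ℝ)) * y)) =
            (C ^ x * C ^ y) * ((p : ℝ) ^ ((e * (n : ℝ) - AA k η R (l - 1) * (b : ℝ) +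
            ε / 2 * (n : ℝ)) * x) * (p : ℝ) ^ ((e * (n : ℝ) - AA k η R (k - l) * (a' : ℝ) +
            ε / 2 * (n : ℝ)) * y)) := by ring
        rw [h1, hCxy, ← Real.rpow_add hp0]
        congr 2
        rw [aa_succ k η R l hl1 hl, ← hx]
        have h2 : (e * (n : ℝ) - AA k η R (l - 1) * (b : ℝ) + ε / 2 * (n : ℝ)) * x +
            (e * (n : ℝ) - AA k η R (k - l) * (a' : ℝ) + ε / 2 * (n : ℝ)) * y =
            (e * (n : ℝ) + ε / 2 * (n : ℝ)) * (x + y) - AA k η R (l - 1) * (b : ℝ) * x -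
              AA k η R (k - l) * (y * (a' : ℝ)) := by ring
        rw [h2, hxy, hya]
        field_simp
        ring
      rw [hexp]
      have hpa : (p : ℝ) ^ (ε / 2 * (a' : ℝ)) ≤ (p : ℝ) ^ (ε / 2 * (n : ℝ)) := by
        apply Real.rpow_le_rpow_of_exponent_le hp1
        have : (a' : ℝ) ≤ n := by exact_mod_cast ha'n
        nlinarith
      have h5 : C' * (p : ℝ) ^ (ε / 2 * (a' : ℝ)) * (C * (p : ℝ) ^ (e * (n : ℝ) -
          AA k η (R + 1) l * (b : ℝ) + ε / 2 * (n : ℝ))) ≤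
          C' * (p : ℝ) ^ (ε / 2 * (n : ℝ)) * (C * (p : ℝ) ^ (e * (n : ℝ) -
          AA k η (R + 1) l * (b : ℝ) + ε / 2 * (n : ℝ))) := by
        refine mul_le_mul_of_nonneg_right ?_ (by positivity)
        exact mul_le_mul_of_nonneg_left hpa hC'.le
      refine h5.trans ?_
      have h6 : C' * (p : ℝ) ^ (ε / 2 * (n : ℝ)) * (C * (p : ℝ) ^ (e * (n : ℝ) -
          AA k η (R + 1) l * (b : ℝ) + ε / 2 * (n : ℝ))) =
          C' * C * (p : ℝ) ^ (e * (n : ℝ) - AA k η (R + 1) l * (b : ℝ) + ε * (n : ℝ)) := by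
        have h7 : (p : ℝ) ^ (ε / 2 * (n : ℝ)) * (p : ℝ) ^ (e * (n : ℝ) -
          AA k η (R + 1) l * (b : ℝ) + ε / 2 * (n : ℝ)) =
            (p : ℝ) ^ (e * (n : ℝ) - AA k η (R + 1) l * (b : ℝ) + ε * (n : ℝ)) := by
          rw [← Real.rpow_add hp0]
          congr 1
          ring
        rw [← h7]
        ring
      rw [h6]
      refine mul_le_mul_of_nonneg_right ?_ (by positivity)
      linarith

/-- the bilinear inequality at scale `1` -/
theorem bil_one {p k : ℕ} (hp : p.Prime) (hk : 2 ≤ k)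
    (hlma : ∀ l, 1 ≤ l → l < k → LmaStmt p k l) (hlmb : ∀ l, 1 ≤ l → l < k → LmbStmt p k l)
    (hlm0 : Lm0Stmt p k) (hlmd : LmdStmt p k) {e η C₀ : ℝ} (hη : 0 ≤ η) (he : η ≤ e)
    (hC₀ : 0 < C₀) (hD : ∀ n : ℕ, Dec p k n (C₀ * (p : ℝ) ^ (e * (n : ℝ)))) (R : ℕ)
    (hR : 4 * (tri k : ℝ) + 1 ≤ AA k η R 1) :
    ∃ C : ℝ, 0 < C ∧ ∀ n : ℕ, k.factorial ^ R * k ^ R ≤ n →
      Bil p k 1 n 1 1 (C * (p : ℝ) ^ ((e - 1 / (4 * (k : ℝ) ^ R)) * (n : ℝ))) := by
  have hp1 : (1 : ℝ) ≤ p := by exact_mod_cast hp.one_lt.le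
  have hp0 : (0 : ℝ) < p := by linarith
  have hkR : 0 < (k : ℝ) ^ R := by
    have : (0 : ℝ) < k := by exact_mod_cast (by omega : 0 < k)
    positivity
  obtain ⟨C, hC, hB⟩ := claim hp hk hlma hlmb hlm0 hη he hC₀ hD R (1 / (4 * (k : ℝ) ^ R))
    (by positivity)
  refine ⟨C, hC, ?_⟩
  intro n hn
  obtain ⟨W, hW⟩ : ∃ W, W = k.factorial ^ R * k ^ R := ⟨_, rfl⟩
  have hW1 : 1 ≤ W := by
    rw [hW]
    exact Nat.mul_pos (pow_pos (Nat.factorial_pos k) R) (pow_pos (by omega) R)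
  have hkR1 : 1 ≤ k ^ R := Nat.one_le_pow _ _ (by omega)
  obtain ⟨b, hb⟩ : ∃ b, b = k.factorial ^ R * (n / W) := ⟨_, rfl⟩
  have hnW : 1 ≤ n / W := (Nat.one_le_div_iff (by omega)).2 (hW ▸ hn)
  have hb1 : 1 ≤ b := by
    rw [hb]
    exact Nat.mul_pos (pow_pos (Nat.factorial_pos k) R) hnW
  have hkb : k ^ R * b ≤ n := by
    have h1 : k ^ R * b = W * (n / W) := by
      rw [hb, hW]
      ring
    rw [h1]
    exact Nat.mul_div_le n W
  have hbn : b ≤ n := le_trans (Nat.le_mul_of_pos_left b hkR1) hkb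
  have hn1 : 1 ≤ n := hb1.trans hbn
  have h1 := hB n 1 b 1 (by omega) le_rfl hn1 hb1 ⟨n / W, hb⟩ hkb (by
    have : 1 ≤ (k - 1 + 1) * b := Nat.mul_pos (by omega) hb1
    omega)
  have h2 := hlmd n 1 b _ (by positivity) le_rfl hn1 hb1 hbn h1
  refine bil_mono h2 ?_
  -- `2 b k ^ R ≥ n`
  have hb2 : (n : ℝ) ≤ 2 * (k : ℝ) ^ R * b := by
    have h3 : n < W * (n / W) + W := by
      have := Nat.lt_mul_div_succ n (by omega : 0 < W)
      rw [Nat.mul_add, mul_one] at this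
      exact this
    have h4 : W ≤ W * (n / W) := Nat.le_mul_of_pos_right _ hnW
    have h5 : n ≤ 2 * (W * (n / W)) := by omega
    have h6 : W * (n / W) = k ^ R * b := by
      rw [hb, hW]
      ring
    rw [h6] at h5
    have : ((n : ℕ) : ℝ) ≤ ((2 * (k ^ R * b) : ℕ) : ℝ) := by exact_mod_cast h5
    push_cast at this
    linarith
  have h3 : (p : ℝ) ^ (2 * tri k * (1 + b)) = (p : ℝ) ^ (((2 * tri k * (1 + b) : ℕ)) : ℝ) := by
    rw [Real.rpow_natCast]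
  have h4 : (p : ℝ) ^ (2 * tri k * (1 + b)) * (C * (p : ℝ) ^ (e * (n : ℝ) -
      AA k η R 1 * (b : ℝ) + 1 / (4 * (k : ℝ) ^ R) * (n : ℝ))) =
      C * (p : ℝ) ^ ((((2 * tri k * (1 + b) : ℕ)) : ℝ) + (e * (n : ℝ) -
      AA k η R 1 * (b : ℝ) + 1 / (4 * (k : ℝ) ^ R) * (n : ℝ))) := by
    rw [h3, Real.rpow_add hp0 (((2 * tri k * (1 + b) : ℕ)) : ℝ) (e * (n : ℝ) -
      AA k η R 1 * (b : ℝ) + 1 / (4 * (k : ℝ) ^ R) * (n : ℝ))]
    ring
  rw [h4]
  refine mul_le_mul_of_nonneg_left ?_ hC.le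
  apply Real.rpow_le_rpow_of_exponent_le hp1
  have hb1' : (1 : ℝ) ≤ b := by exact_mod_cast hb1
  have ht : (0 : ℝ) ≤ tri k := Nat.cast_nonneg _
  push_cast
  have h5 : (4 * (tri k : ℝ) + 1) * b ≤ AA k η R 1 * b :=
    mul_le_mul_of_nonneg_right hR (by linarith)
  have h6 : 1 / (4 * (k : ℝ) ^ R) * (n : ℝ) ≤ b / 2 := by
    rw [div_mul_eq_mul_div, one_mul, div_le_iff₀ (by positivity)]
    nlinarith
  have h7 : (e - 1 / (4 * (k : ℝ) ^ R)) * (n : ℝ) = e * n - 1 / (4 * (k : ℝ) ^ R) * (n : ℝ) := by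
    ring
  rw [h7]
  nlinarith

/-- the set of exponents -/
def DE (p k : ℕ) (e : ℝ) : Prop :=
  ∃ C : ℝ, 0 < C ∧ ∀ n : ℕ, Dec p k n (C * (p : ℝ) ^ (e * (n : ℝ)))

theorem de_tri {p k : ℕ} (hp : p.Prime) (hk : 2 ≤ k) (trv : TrvStmt) : DE p k (tri k) := by
  refine ⟨1, one_pos, ?_⟩
  intro n s w
  have h := trv (p ^ (k * n)) k (mc 0 k) (tri k) 1 (p ^ n) 0 s w (pow_pos hp.pos _)
    (tri_pos (by omega)) one_pos (pow_pos hp.pos _) (fun x _ => by
      rw [Nat.cast_one]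
      exact Int.modEq_one)
  rw [one_mul] at h
  refine h.trans (le_of_eq ?_)
  congr 1
  rw [one_mul]
  push_cast
  rw [← pow_mul, ← Real.rpow_natCast]
  congr 1
  push_cast
  ring

/-- the step: an exponent `e ≥ η > 0` can be lowered by a fixed amount -/
theorem step {p k : ℕ} (hp : p.Prime) (hk : 2 ≤ k) (grw : GrwStmt)
    (hlma : ∀ l, 1 ≤ l → l < k → LmaStmt p k l) (hlmb : ∀ l, 1 ≤ l → l < k → LmbStmt p k l)
    (hlm0 : Lm0Stmt p k) (hlmc : LmcStmt p k) (hlmd : LmdStmt p k) {η : ℝ} (hη : 0 < η) :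
    ∃ γ : ℝ, 0 < γ ∧ γ ≤ η / 4 ∧ ∀ e, η ≤ e → DE p k e → DE p k (e - γ) := by
  have hp1 : (1 : ℝ) < p := by exact_mod_cast hp.one_lt
  have hp0 : (0 : ℝ) < p := by linarith
  obtain ⟨R, hR⟩ := grw k η (4 * (tri k : ℝ) + 1) (AA k η) hk hη (aa_zero k η)
    (aa_succ_zero k η) (fun R l h1 h2 => aa_succ k η R l h1 h2) (aa_nonneg k η hη.le)
  have hk0 : (0 : ℝ) < k := by exact_mod_cast (by omega : 0 < k)
  obtain ⟨γ, hγ⟩ : ∃ γ : ℝ, γ = min (1 / (4 * (k : ℝ) ^ R)) (η / 4) := ⟨_, rfl⟩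
  have hγ0 : 0 < γ := by
    rw [hγ]
    exact lt_min (by positivity) (by positivity)
  have hγ1 : γ ≤ 1 / (4 * (k : ℝ) ^ R) := hγ ▸ min_le_left _ _
  have hγ2 : γ ≤ η / 4 := hγ ▸ min_le_right _ _
  refine ⟨γ, hγ0, hγ2, ?_⟩
  rintro e he ⟨C₀, hC₀, hD⟩
  obtain ⟨C₁, hC₁, hB⟩ := bil_one hp hk hlma hlmb hlm0 hlmd hη.le he hC₀ hD R hR
  -- the choice of `κ`
  obtain ⟨κ, hκ0, hκ1, hκ⟩ : ∃ κ : ℝ, 0 < κ ∧ κ < 1 ∧
      ((1 - κ) ^ (2 * tri k))⁻¹ ≤ (p : ℝ) ^ (η / 2) := by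
    have hA : 1 < (p : ℝ) ^ (η / 2) := Real.one_lt_rpow hp1 (by positivity)
    have hcont : Filter.Tendsto (fun κ : ℝ => ((1 - κ) ^ (2 * tri k))⁻¹) (nhds 0) (nhds 1) := by
      have h1 : ContinuousAt (fun κ : ℝ => ((1 - κ) ^ (2 * tri k))⁻¹) 0 := by
        apply ContinuousAt.inv₀
        · exact ((continuous_const.sub continuous_id).pow _).continuousAt
        · norm_num
      have h2 := h1.tendsto
      simpa using h2
    have h3 := hcont.eventually (gt_mem_nhds hA)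
    obtain ⟨δ, hδ, h4⟩ := Metric.eventually_nhds_iff.1 h3
    refine ⟨min (δ / 2) (1 / 2), lt_min (by positivity) (by norm_num),
      lt_of_le_of_lt (min_le_right _ _) (by norm_num), ?_⟩
    refine (h4 ?_).le
    rw [Real.dist_eq, sub_zero, abs_of_pos (lt_min (by positivity) (by norm_num))]
    exact lt_of_le_of_lt (min_le_left _ _) (by linarith)
  obtain ⟨C₂, hC₂, hL⟩ := hlmc κ hκ0 hκ1
  obtain ⟨W, hW⟩ : ∃ W, W = k.factorial ^ R * k ^ R := ⟨_, rfl⟩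
  rw [← hW] at hB
  obtain ⟨σ, hσ⟩ : ∃ σ, σ = e - γ := ⟨_, rfl⟩
  rw [← hσ]
  have hσ0 : 3 * η / 4 ≤ σ := by rw [hσ]; linarith
  have hq : (p : ℝ) ^ (-(η / 4)) < 1 := by
    rw [Real.rpow_neg hp0.le]
    exact inv_lt_one_of_one_lt₀ (Real.one_lt_rpow hp1 (by positivity))
  obtain ⟨C₃, hC₃def⟩ : ∃ C₃, C₃ = C₂ * C₁ / (1 - (p : ℝ) ^ (-(η / 4))) +
      C₀ * (p : ℝ) ^ (e * (W : ℝ)) := ⟨_, rfl⟩
  have hden : 0 < 1 - (p : ℝ) ^ (-(η / 4)) := by linarith
  have hC₃ : 0 < C₃ := by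
    rw [hC₃def]
    positivity
  refine ⟨C₃, hC₃, ?_⟩
  intro n
  induction n with
  | zero =>
    refine dec_mono (hD 0) ?_
    have h1 : C₀ * (p : ℝ) ^ (e * ((0 : ℕ) : ℝ)) = C₀ := by simp
    have h2 : C₃ * (p : ℝ) ^ (σ * ((0 : ℕ) : ℝ)) = C₃ := by simp
    rw [h1, h2, hC₃def]
    have h3 : 1 ≤ (p : ℝ) ^ (e * (W : ℝ)) := by
      apply Real.one_le_rpow hp1.le
      have : (0 : ℝ) ≤ W := Nat.cast_nonneg _
      have : 0 ≤ e := by linarith
      positivity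
    have h4 : C₀ ≤ C₀ * (p : ℝ) ^ (e * (W : ℝ)) := by nlinarith
    have h5 : 0 < C₂ * C₁ / (1 - (p : ℝ) ^ (-(η / 4))) := by positivity
    linarith
  | succ n ih =>
    by_cases hn : n + 1 < W
    · refine dec_mono (hD (n + 1)) ?_
      have h1 : (p : ℝ) ^ (e * ((n + 1 : ℕ) : ℝ)) ≤ (p : ℝ) ^ (e * (W : ℝ)) := by
        apply Real.rpow_le_rpow_of_exponent_le hp1.le
        have h2 : ((n + 1 : ℕ) : ℝ) ≤ W := by exact_mod_cast hn.le
        have : 0 ≤ e := by linarith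
        nlinarith
      have h2 : 1 ≤ (p : ℝ) ^ (σ * ((n + 1 : ℕ) : ℝ)) := by
        apply Real.one_le_rpow hp1.le
        have : (0 : ℝ) ≤ ((n + 1 : ℕ) : ℝ) := Nat.cast_nonneg _
        have : 0 ≤ σ := by linarith
        positivity
      have h3 : C₀ * (p : ℝ) ^ (e * (W : ℝ)) ≤ C₃ := by
        rw [hC₃def]
        have h5 : 0 < C₂ * C₁ / (1 - (p : ℝ) ^ (-(η / 4))) := by positivity
        linarith
      calc C₀ * (p : ℝ) ^ (e * ((n + 1 : ℕ) : ℝ)) ≤ C₀ * (p : ℝ) ^ (e * (W : ℝ)) :=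
            mul_le_mul_of_nonneg_left h1 hC₀.le
        _ ≤ C₃ := h3
        _ ≤ C₃ * (p : ℝ) ^ (σ * ((n + 1 : ℕ) : ℝ)) := by nlinarith
    · have h1 := hL (n + 1) _ _ (by positivity) (by positivity) (by omega) ih
        (hB (n + 1) (by omega))
      refine dec_mono h1 ?_
      obtain ⟨Z, hZ⟩ : ∃ Z, Z = (p : ℝ) ^ (σ * ((n + 1 : ℕ) : ℝ)) := ⟨_, rfl⟩
      have hZ0 : 0 < Z := by rw [hZ]; positivity
      have h2 : ((1 - κ) ^ (2 * tri k))⁻¹ * (C₃ * (p : ℝ) ^ (σ * (n : ℝ))) ≤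
          C₃ * (p : ℝ) ^ (-(η / 4)) * Z := by
        have h3 : (p : ℝ) ^ (η / 2) * (p : ℝ) ^ (σ * (n : ℝ)) ≤ (p : ℝ) ^ (-(η / 4)) * Z := by
          rw [hZ, ← Real.rpow_add hp0, ← Real.rpow_add hp0]
          apply Real.rpow_le_rpow_of_exponent_le hp1.le
          push_cast
          nlinarith
        calc ((1 - κ) ^ (2 * tri k))⁻¹ * (C₃ * (p : ℝ) ^ (σ * (n : ℝ))) ≤
              (p : ℝ) ^ (η / 2) * (C₃ * (p : ℝ) ^ (σ * (n : ℝ))) :=
              mul_le_mul_of_nonneg_right hκ (by positivity)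
          _ = C₃ * ((p : ℝ) ^ (η / 2) * (p : ℝ) ^ (σ * (n : ℝ))) := by ring
          _ ≤ C₃ * ((p : ℝ) ^ (-(η / 4)) * Z) := mul_le_mul_of_nonneg_left h3 hC₃.le
          _ = C₃ * (p : ℝ) ^ (-(η / 4)) * Z := by ring
      have h4 : C₂ * (C₁ * (p : ℝ) ^ ((e - 1 / (4 * (k : ℝ) ^ R)) * ((n + 1 : ℕ) : ℝ))) ≤
          C₂ * C₁ * Z := by
        rw [← mul_assoc]
        refine mul_le_mul_of_nonneg_left ?_ (by positivity)
        rw [hZ]
        apply Real.rpow_le_rpow_of_exponent_le hp1.le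
        refine mul_le_mul_of_nonneg_right ?_ (Nat.cast_nonneg _)
        rw [hσ]
        linarith
      have h5 : C₂ * C₁ ≤ C₃ * (1 - (p : ℝ) ^ (-(η / 4))) := by
        have h6 : C₂ * C₁ / (1 - (p : ℝ) ^ (-(η / 4))) ≤ C₃ := by
          rw [hC₃def]
          have : 0 < C₀ * (p : ℝ) ^ (e * (W : ℝ)) := by positivity
          linarith
        rwa [div_le_iff₀ hden] at h6
      rw [← hZ]
      calc ((1 - κ) ^ (2 * tri k))⁻¹ * (C₃ * (p : ℝ) ^ (σ * (n : ℝ))) +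
            C₂ * (C₁ * (p : ℝ) ^ ((e - 1 / (4 * (k : ℝ) ^ R)) * ((n + 1 : ℕ) : ℝ))) ≤
            C₃ * (p : ℝ) ^ (-(η / 4)) * Z + C₂ * C₁ * Z := add_le_add h2 h4
        _ ≤ C₃ * (p : ℝ) ^ (-(η / 4)) * Z + C₃ * (1 - (p : ℝ) ^ (-(η / 4))) * Z := by
            have := mul_le_mul_of_nonneg_right h5 hZ0.le
            linarith
        _ = C₃ * Z := by ring

/-- FIN -/
theorem fin (p k : ℕ) (hp : p.Prime) (hk : 2 ≤ k) (hkp : k < p) (grw : GrwStmt)
    (trv : TrvStmt) : FinStmt p k := by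
  intro hlma hlmb hlm0 hlmc hlmd
  have hp1 : (1 : ℝ) < p := by exact_mod_cast hp.one_lt
  have hp0 : (0 : ℝ) < p := by linarith
  obtain ⟨S, hS⟩ : ∃ S : Set ℝ, S = {e | 0 ≤ e ∧ DE p k e} := ⟨_, rfl⟩
  have hSne : S.Nonempty := ⟨tri k, hS ▸ ⟨Nat.cast_nonneg _, de_tri hp hk trv⟩⟩
  have hSb : BddBelow S := ⟨0, fun e he => (hS ▸ he : e ∈ {e | 0 ≤ e ∧ DE p k e}).1⟩
  have h0 : 0 ≤ sInf S := le_csInf hSne fun e he => (hS ▸ he : e ∈ {e | 0 ≤ e ∧ DE p k e}).1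
  have hinf : sInf S = 0 := by
    by_contra hne
    have hpos : 0 < sInf S := lt_of_le_of_ne h0 (Ne.symm hne)
    obtain ⟨γ, hγ0, hγ1, hγ⟩ := step hp hk grw hlma hlmb hlm0 hlmc hlmd hpos
    obtain ⟨e, he, hlt⟩ := exists_lt_of_csInf_lt hSne (by linarith : sInf S < sInf S + γ)
    have he' : e ∈ {e | 0 ≤ e ∧ DE p k e} := hS ▸ he
    have h1 : sInf S ≤ e := csInf_le hSb he
    have h2 : e - γ ∈ S := by
      rw [hS]
      exact ⟨by linarith, hγ e h1 he'.2⟩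
    have h3 := csInf_le hSb h2
    linarith
  intro ε hε
  obtain ⟨e, he, hlt⟩ := exists_lt_of_csInf_lt hSne (by rw [hinf]; exact hε : sInf S < ε)
  have he' : e ∈ {e | 0 ≤ e ∧ DE p k e} := hS ▸ he
  obtain ⟨C, hC, hD⟩ := he'.2
  refine ⟨C, hC, fun n => dec_mono (hD n) ?_⟩
  refine mul_le_mul_of_nonneg_left ?_ hC.le
  apply Real.rpow_le_rpow_of_exponent_le hp1.le
  exact mul_le_mul_of_nonneg_right hlt.le (Nat.cast_nonneg _)

end Pool.Agent.VM.H56
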